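import Pool.Agent.W744.BU.Stm

set_option autoImplicit false

open Set Filter Topology

namespace Pool.Agent.W375.BU.PHI

open Pool.Agent.W744.BU

/-- generators belong to the generated algebra -/
theorem mem_CA {J K : Type} (U : K → Op J) (g : K) : U g ∈ CA U :=
  StarSubalgebra.le_topologicalClosure _ (StarAlgebra.subset_adjoin ℂ _ (mem_range_self g))

theorem isClosed_CA {J K : Type} (U : K → Op J) : IsClosed (CA U : Set (Op J)) :=
  StarSubalgebra.isClosed_topologicalClosure _

theorem CA_le {J K : Type} (U : K → Op J) (S : StarSubalgebra ℂ (Op J))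
    (hS : IsClosed (S : Set (Op J))) (h : ∀ g, U g ∈ S) : CA U ≤ S := by
  refine StarSubalgebra.topologicalClosure_minimal ?_ hS
  refine StarAlgebra.adjoin_le ?_
  rintro x ⟨g, rfl⟩
  exact h g

/-- transfer along a continuous star homomorphism -/
theorem CA_ind {J K L : Type} (U : K → Op J) (f : CA U →⋆ₐ[ℂ] Op L) (hf : Continuous f)
    (S : StarSubalgebra ℂ (Op L)) (hS : IsClosed (S : Set (Op L)))
    (h : ∀ g, f ⟨U g, mem_CA U g⟩ ∈ S) : ∀ a, f a ∈ S := by
  intro a
  have hcl : IsClosed {x : CA U | f x ∈ S} := hS.preimage hf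
  have h1 : ∀ x (hx : x ∈ StarAlgebra.adjoin ℂ (range U)),
      f ⟨x, StarSubalgebra.le_topologicalClosure _ hx⟩ ∈ S := by
    have h2 : StarAlgebra.adjoin ℂ (range U) ≤ (S.comap f).map (CA U).subtype := by
      refine StarAlgebra.adjoin_le ?_
      rintro x ⟨g, rfl⟩
      exact ⟨⟨U g, mem_CA U g⟩, h g, rfl⟩
    intro x hx
    obtain ⟨y, hy, hyx⟩ := h2 hx
    have : y = ⟨x, StarSubalgebra.le_topologicalClosure _ hx⟩ := Subtype.ext hyx
    rw [← this]
    exact hy
  have h3 : a ∈ closure {x : CA U | f x ∈ S} := by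
    rw [closure_subtype]
    have h4 : (a : Op J) ∈ closure ((StarAlgebra.adjoin ℂ (range U) : StarSubalgebra ℂ (Op J)) : Set (Op J)) := by
      have := a.2
      unfold CA at this
      rw [← SetLike.mem_coe, StarSubalgebra.topologicalClosure_coe] at this
      exact this
    refine closure_mono ?_ h4
    intro x hx
    exact ⟨⟨x, StarSubalgebra.le_topologicalClosure _ hx⟩, h1 x hx, rfl⟩
  rw [hcl.closure_eq] at h3
  exact h3

theorem up_inj (D : Dat) (t : unitInterval) : Function.Injective (up D t) := by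
  rintro ⟨⟨n, i⟩, g⟩ ⟨⟨m, j⟩, h⟩ hh
  simp only [up] at hh
  have h1 : n + 1 = m + 1 := congrArg Sigma.fst hh
  obtain rfl : n = m := by omega
  have h2 := eq_of_heq (Sigma.mk.inj hh).2
  have h3 := eq_of_heq (Sigma.mk.inj h2).2
  have h4 : i = j := (Prod.mk.inj h3).1
  have h5 : g = h := (Prod.mk.inj h3).2
  rw [h4, h5]

theorem upG_inj (D : Dat) (t : unitInterval) : Function.Injective (upG D t) := by
  rintro ⟨p, g⟩ ⟨q, h⟩ hh
  have h1 : up D t p = up D t q := congrArg Prod.fst hh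
  have h2 : g = h := congrArg Prod.snd hh
  rw [up_inj D t h1, h2]

section steps

variable (hENT : S_ENT) (hTENS : S_TENS) (hCOMP : S_COMP) (hUP : S_UP)

include hTENS hUP in
theorem red (D : Dat) (t : unitInterval) (g : D.G) : Red (upG D t) (UU (tot D) g) := by
  rintro ⟨j, h⟩ ⟨i, k⟩ hj
  have hj' : j ∉ range (up D t) := by
    rintro ⟨x, hx⟩
    exact hj ⟨(x, h), by simp [upG, hx]⟩
  have hr := (hUP D t g).1 j i hj'
  have ht := (hTENS.1 _ _ ((tot D).X g) (lam g)).1
  constructor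
  · show entry (tens ((tot D).X g) (lam g)) (j, h) (up D t i, k) = 0
    rw [ht, hr.1, zero_mul]
  · show entry (tens ((tot D).X g) (lam g)) (up D t i, k) (j, h) = 0
    rw [ht, hr.2, zero_mul]

include hENT hTENS hCOMP hUP in
theorem comp_UU (D : Dat) (t : unitInterval) (g : D.G) :
    comp (upG D t) (UU (tot D) g) = tens (YF D (t : ℝ) (UU (tot D)) g) (lam g) := by
  apply hENT.1
  rintro ⟨i, k⟩ ⟨j, l⟩
  rw [(hCOMP _ _ (upG D t) (upG_inj D t)).1, (hTENS.1 _ _ _ _).1, ← (hUP D t g).2,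
    (hCOMP _ _ (up D t) (up_inj D t)).1]
  show entry (tens ((tot D).X g) (lam g)) (up D t i, k) (up D t j, l) = _
  rw [(hTENS.1 _ _ _ _).1]

end steps

/-- tensoring on the left with a fixed operator on the right is continuous -/
theorem cont_tens (hTENS : S_TENS) {I J : Type} (b : Op J) :
    Continuous (fun a : Op I => tens a b) := by
  obtain ⟨h1, -, -, -, h5, -, h7, -⟩ := hTENS
  have hsub : ∀ a a' : Op I, tens (a - a') b = tens a b - tens a' b := by
    intro a a'
    rw [sub_eq_add_neg, h5, ← neg_one_smul ℂ a', (h7 _ _ (-1) a' b).1, neg_one_smul, sub_eq_add_neg]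
  refine (LipschitzWith.of_dist_le_mul (K := ⟨‖b‖, norm_nonneg b⟩) ?_).continuous
  intro a a'
  rw [dist_eq_norm, dist_eq_norm, ← hsub]
  refine ((h1 _ _ (a - a') b).2).trans ?_
  rw [mul_comm]
  rfl

/-- the isometric star homomorphism `b ↦ 1 ⊗ b` -/
theorem tens_hom (hTENS : S_TENS) (I J : Type) (hI : Nonempty I) :
    ∃ ψ : Op J →⋆ₐ[ℂ] Op (I × J), (∀ b, ψ b = tens 1 b) ∧ ∀ b, ‖ψ b‖ = ‖b‖ := by
  obtain ⟨h1, h2, h3, h4, h5, h6, h7, h8⟩ := hTENS
  refine ⟨{ toFun := fun b => tens (1 : Op I) b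
            map_one' := h4 I J
            map_mul' := ?_
            map_zero' := ?_
            map_add' := ?_
            commutes' := ?_
            map_star' := ?_ }, fun b => rfl, fun b => h8 I J hI b⟩
  · intro x y
    have := h2 I J 1 1 x y
    rw [one_mul] at this
    exact this
  · have := (h7 I J 0 (1 : Op I) (0 : Op J)).2
    rw [zero_smul, zero_smul] at this
    exact this
  · intro x y
    exact h6 I J 1 x y
  · intro r
    show tens (1 : Op I) (algebraMap ℂ (Op J) r) = algebraMap ℂ _ r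
    rw [Algebra.algebraMap_eq_smul_one, (h7 I J r (1 : Op I) (1 : Op J)).2, h4,
      Algebra.algebraMap_eq_smul_one]
  · intro x
    show tens (1 : Op I) (star x) = star (tens (1 : Op I) x)
    have := h3 I J 1 x
    rw [star_one] at this
    exact this

theorem isClosed_map {I J : Type} (ψ : Op J →⋆ₐ[ℂ] Op I) (hψ : ∀ b, ‖ψ b‖ = ‖b‖)
    (S : StarSubalgebra ℂ (Op J)) (hS : IsClosed (S : Set (Op J))) :
    IsClosed ((S.map ψ : StarSubalgebra ℂ (Op I)) : Set (Op I)) := by
  have hiso : Isometry ψ := AddMonoidHomClass.isometry_of_norm ψ hψ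
  have := hiso.isClosedEmbedding.isClosedMap _ hS
  rw [StarSubalgebra.coe_map]
  exact this

/-- the induction over formal expressions at the end point `t = 1` -/
theorem ex_dop (hTENS : S_TENS) (hDOP : S_DOP) (hLAM : S_LAM) {G J : Type} [Group G] (d : J → G)
    (U : G → Op J) (P : Op J) (g₀ : G) (hP : Dop d P = tens P (lam g₀))
    (hU : ∀ g, Dop d (U g) = tens (U g) (lam g)) (e : Ex G) :
    Dop d (Ex.ev U P e) = tens (Ex.ev U P e) (lam (Ex.deg g₀ e)) := by
  obtain ⟨-, Δ, hΔ, -⟩ := hDOP G J d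
  obtain ⟨-, h2, h3, h4, -, -, -, -⟩ := hTENS
  obtain ⟨-, l1, lm, ls, -, -⟩ := hLAM G
  induction e with
  | one =>
    simp only [Ex.ev, Ex.deg]
    rw [l1, h4, ← hΔ, map_one]
  | base => simpa only [Ex.ev, Ex.deg] using hP
  | inv x ih =>
    simp only [Ex.ev, Ex.deg]
    rw [← ls, h3, ← ih, ← hΔ, ← hΔ, map_star]
  | mul x y ihx ihy =>
    simp only [Ex.ev, Ex.deg]
    rw [lm, h2, ← ihx, ← ihy, ← hΔ, ← hΔ, ← hΔ, map_mul]
  | conj h x ih =>
    simp only [Ex.ev, Ex.deg]
    rw [lm, lm, ← ls h, h2, h2, h3, ← ih, ← hU, ← hΔ, ← hΔ, ← hΔ, map_mul, map_mul, map_star]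

/-- the restriction to the generated algebra of the compression -/
theorem phi_t (hTENS : S_TENS) (hCOMP : S_COMP) (hUP : S_UP) (D : Dat)
    (t : unitInterval) :
    ∃ φt : CA (UU (tot D)) →⋆ₐ[ℂ] Op (((tot D).I × D.G) × D.G),
      ∀ a : CA (UU (tot D)), φt a = comp (upG D t) (a : Op ((tot D).I × D.G)) := by
  obtain ⟨-, -, R, hRc, hR, C, hC⟩ := hCOMP _ _ (upG D t) (upG_inj D t)
  have hle : CA (UU (tot D)) ≤ R :=
    CA_le _ R hRc fun g => (hR _).2 (red hTENS hUP D t g)
  exact ⟨C.comp (StarSubalgebra.inclusion hle), fun a => hC _⟩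

theorem cont_comp (hCOMP : S_COMP) (D : Dat) (t : unitInterval)
    (φt : CA (UU (tot D)) →⋆ₐ[ℂ] Op (((tot D).I × D.G) × D.G))
    (h : ∀ a : CA (UU (tot D)), φt a = comp (upG D t) (a : Op ((tot D).I × D.G))) :
    Continuous φt := by
  refine (LipschitzWith.of_dist_le_mul (K := 1) ?_).continuous
  intro a b
  rw [dist_eq_norm, dist_eq_norm, h, h]
  refine ((hCOMP _ _ (upG D t) (upG_inj D t)).2.1 _ _).trans ?_
  simp

theorem good_U (hUN : S_UN) (hPP : S_PP) (D : Dat) : Good D (UU (tot D)) :=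
  (hPP D (tot D) (hUN D).2).2 _ (StarAlgHom.id ℂ _) (UU (tot D)) (fun _ => rfl) (fun _ => rfl)

theorem yf_mem (hUN : S_UN) (hPP : S_PP) (hYF : S_YF) (D : Dat) (t : unitInterval) (g : D.G) :
    YF D (t : ℝ) (UU (tot D)) g ∈ CA (UU (tot D)) := by
  have : IsClosed (CA (UU (tot D)) : Set (Op ((tot D).I × D.G))) := isClosed_CA _
  have hg : Good D (B := CA (UU (tot D))) (fun g => ⟨UU (tot D) g, mem_CA _ g⟩) :=
    (hPP D (tot D) (hUN D).2).2 _ (CA (UU (tot D))).subtype _ (fun _ => rfl) (fun _ => rfl)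
  have h := (hYF D _ _ hg g).2.2.2.1 (t : ℝ) t.2.1 t.2.2 _ (CA (UU (tot D))).subtype
  have h' : (CA (UU (tot D))).subtype (YF D (t : ℝ) (fun g => (⟨UU (tot D) g, mem_CA _ g⟩ : CA (UU (tot D)))) g)
      = YF D (t : ℝ) (UU (tot D)) g := h
  rw [← h']
  exact Subtype.mem _

theorem cont_path (hENT : S_ENT) (hTENS : S_TENS) (hCOMP : S_COMP) (hUP : S_UP) (hUN : S_UN)
    (hPP : S_PP) (hYF : S_YF) (D : Dat)
    (Φ : unitInterval → (CA (UU (tot D)) →⋆ₐ[ℂ] Op (((tot D).I × D.G) × D.G)))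
    (hΦ : ∀ t a, Φ t a = comp (upG D t) (a : Op ((tot D).I × D.G))) :
    ∀ a : CA (UU (tot D)), Continuous fun t : unitInterval => Φ t a := by
  let S : StarSubalgebra ℂ (CA (UU (tot D))) :=
    { carrier := {a | Continuous fun t : unitInterval => Φ t a}
      mul_mem' := by
        intro a b ha hb
        show Continuous fun t => Φ t (a * b)
        simp only [map_mul]
        exact Continuous.mul ha hb
      one_mem' := by
        show Continuous fun t => Φ t 1
        simp only [map_one]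
        exact continuous_const
      add_mem' := by
        intro a b ha hb
        show Continuous fun t => Φ t (a + b)
        simp only [map_add]
        exact Continuous.add ha hb
      zero_mem' := by
        show Continuous fun t => Φ t 0
        simp only [map_zero]
        exact continuous_const
      algebraMap_mem' := by
        intro r
        show Continuous fun t => Φ t (algebraMap ℂ _ r)
        simp only [AlgHomClass.commutes]
        exact continuous_const
      star_mem' := by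
        intro a ha
        show Continuous fun t => Φ t (star a)
        simp only [map_star]
        exact Continuous.star ha }
  have hS : ∀ a : CA (UU (tot D)), a ∈ S ↔ Continuous fun t : unitInterval => Φ t a :=
    fun a => Iff.rfl
  have hgen : ∀ g, (⟨UU (tot D) g, mem_CA _ g⟩ : CA (UU (tot D))) ∈ S := by
    intro g
    rw [hS]
    have h1 : (fun t : unitInterval => Φ t ⟨UU (tot D) g, mem_CA _ g⟩)
        = fun t : unitInterval => tens (YF D (t : ℝ) (UU (tot D)) g) (lam g) := by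
      funext t
      rw [hΦ]
      exact comp_UU hENT hTENS hCOMP hUP D t g
    rw [h1]
    exact (cont_tens hTENS (lam g)).comp (hYF D _ _ (good_U hUN hPP D) g).1
  have hcl : ∀ a : CA (UU (tot D)), a ∈ closure (S : Set (CA (UU (tot D)))) → a ∈ S := by
    intro a ha
    rw [hS]
    refine continuous_of_uniform_approx_of_continuous ?_
    intro u hu
    obtain ⟨ε, hε, hεu⟩ := Metric.mem_uniformity_dist.1 hu
    obtain ⟨b, hb, hab⟩ := Metric.mem_closure_iff.1 ha ε hε
    refine ⟨fun t => Φ t b, (hS b).1 hb, fun t => hεu ?_⟩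
    refine lt_of_le_of_lt ?_ hab
    show dist (Φ t a) (Φ t b) ≤ dist a b
    rw [dist_eq_norm, dist_eq_norm, hΦ, hΦ]
    exact (hCOMP _ _ (upG D t) (upG_inj D t)).2.1 _ _
  intro a
  have h2 : StarAlgebra.adjoin ℂ (range (UU (tot D))) ≤ S.map (CA (UU (tot D))).subtype := by
    refine StarAlgebra.adjoin_le ?_
    rintro x ⟨g, rfl⟩
    exact ⟨⟨UU (tot D) g, mem_CA _ g⟩, hgen g, rfl⟩
  have h3 : a ∈ closure (S : Set (CA (UU (tot D)))) := by
    rw [closure_subtype]
    have h4 : (a : Op ((tot D).I × D.G)) ∈ closure ((StarAlgebra.adjoin ℂ (range (UU (tot D))) :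
        StarSubalgebra ℂ (Op ((tot D).I × D.G))) : Set (Op ((tot D).I × D.G))) := by
      have := a.2
      unfold CA at this
      rw [← SetLike.mem_coe, StarSubalgebra.topologicalClosure_coe] at this
      exact this
    refine closure_mono ?_ h4
    intro x hx
    obtain ⟨y, hy, hyx⟩ := h2 hx
    exact ⟨y, hy, hyx⟩
  exact (hS a).1 (hcl a h3)

theorem main (hENT : S_ENT) (hTENS : S_TENS) (hCOMP : S_COMP) (hDOP : S_DOP) (hLAM : S_LAM)
    (hYF : S_YF) (hPP : S_PP) (hUN : S_UN) (hUP : S_UP) (hDU : S_DU) (_hGR : S_GR) : S_PHI := by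
  intro D
  choose Φ hΦ using phi_t hTENS hCOMP hUP D
  have hΦc : ∀ t, Continuous (Φ t) := fun t => cont_comp hCOMP D t (Φ t) (hΦ t)
  have hcont := cont_path hENT hTENS hCOMP hUP hUN hPP hYF D Φ hΦ
  let φ : CA (UU (tot D)) →⋆ₐ[ℂ] C(unitInterval, Op (((tot D).I × D.G) × D.G)) :=
    { toFun := fun a => ⟨fun t => Φ t a, hcont a⟩
      map_one' := by ext1 t; exact map_one (Φ t)
      map_mul' := by intro a b; ext1 t; exact map_mul (Φ t) a b
      map_zero' := by ext1 t; exact map_zero (Φ t)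
      map_add' := by intro a b; ext1 t; exact map_add (Φ t) a b
      commutes' := by intro r; ext1 t; exact AlgHomClass.commutes (Φ t) r
      map_star' := by intro a; ext1 t; exact map_star (Φ t) a }
  have hφ : ∀ a t, φ a t = Φ t a := fun a t => rfl
  have hgen : ∀ t g, Φ t ⟨UU (tot D) g, mem_CA _ g⟩
      = tens (YF D (t : ℝ) (UU (tot D)) g) (lam g) := by
    intro t g
    rw [hΦ]
    exact comp_UU hENT hTENS hCOMP hUP D t g
  have hlamH : ∀ g : D.G, lam g ∈ CA (lam : D.G → Op D.G) := fun g => mem_CA _ g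
  refine ⟨φ, fun a t => hΦ t a, ?_, ?_, ?_⟩
  · intro a t
    rw [hφ]
    refine CA_ind (UU (tot D)) (Φ t) (hΦc t) _ (StarSubalgebra.isClosed_topologicalClosure _) ?_ a
    intro g
    rw [hgen]
    refine StarSubalgebra.le_topologicalClosure _ (StarAlgebra.subset_adjoin ℂ _ ?_)
    exact ⟨_, yf_mem hUN hPP hYF D t g, _, hlamH g, (hTENS.1 _ _ _ _).1⟩
  · intro a
    rw [hφ]
    have hne : Nonempty ((tot D).I × D.G) := ⟨(⟨0, ()⟩, 1)⟩
    obtain ⟨ψ, hψ, hψn⟩ := tens_hom hTENS ((tot D).I × D.G) D.G hne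
    have := CA_ind (UU (tot D)) (Φ 0) (hΦc 0) ((CA (lam : D.G → Op D.G)).map ψ)
      (isClosed_map ψ hψn _ (isClosed_CA _)) ?_ a
    · obtain ⟨h, hh, hha⟩ := this
      refine ⟨h, hh, ?_⟩
      have h5 : Φ 0 a = tens 1 h := by rw [← hψ]; exact hha.symm
      rw [h5]
      exact (hTENS.1 _ _ _ _).1
    · intro g
      rw [hgen]
      refine ⟨lam g, hlamH g, ?_⟩
      show ψ (lam g) = _
      have h0 : YF D ((0 : unitInterval) : ℝ) (UU (tot D)) g = 1 :=
        (hYF D _ _ (good_U hUN hPP D) g).2.2.1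
      rw [hψ, h0]
  · intro a
    rw [hφ]
    obtain ⟨-, Δ, hΔ, hΔn⟩ := hDOP D.G ((tot D).I × D.G) (Prod.snd : (tot D).I × D.G → D.G)
    have := CA_ind (UU (tot D)) (Φ 1) (hΦc 1) ((CA (UU (tot D))).map Δ)
      (isClosed_map Δ hΔn _ (isClosed_CA _)) ?_ a
    · obtain ⟨b, hb, hba⟩ := this
      refine ⟨b, hb, ?_⟩
      rw [← hΔ]
      exact hba.symm
    · intro g
      have h1 : YF D ((1 : unitInterval) : ℝ) (UU (tot D)) g = Ex.ev (UU (tot D))
          (UU (tot D) D.b * UU (tot D) D.a * star (UU (tot D) D.b) * star (UU (tot D) D.a))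
          (D.ex g) :=
        (hYF D _ _ (good_U hUN hPP D) g).2.2.2.2
      rw [hgen]
      refine ⟨YF D ((1 : unitInterval) : ℝ) (UU (tot D)) g, yf_mem hUN hPP hYF D 1 g, ?_⟩
      show Δ _ = _
      rw [hΔ, h1]
      have hUd : ∀ g, Dop (Prod.snd : (tot D).I × D.G → D.G) (UU (tot D) g)
          = tens (UU (tot D) g) (lam g) := fun g => hDU D.G (tot D) g
      have hLAM' := hLAM D.G
      obtain ⟨-, l1, lm, ls, -, -⟩ := hLAM'
      have hTENS' := hTENS
      obtain ⟨-, t2, t3, -, -, -, -, -⟩ := hTENS'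
      have := ex_dop hTENS hDOP hLAM (Prod.snd : (tot D).I × D.G → D.G) (UU (tot D))
        (UU (tot D) D.b * UU (tot D) D.a * star (UU (tot D) D.b) * star (UU (tot D) D.a))
        (D.b * D.a * D.b⁻¹ * D.a⁻¹) ?_ hUd (D.ex g)
      · rw [D.hex g] at this
        exact this
      · rw [lm, lm, lm, ← ls, ← ls, t2, t2, t2, t3, t3, ← hUd, ← hUd, ← hΔ, ← hΔ, ← hΔ, map_mul,
          map_mul, map_mul, map_star, map_star]

end Pool.Agent.W375.BU.PHI
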